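import Mathlib

/-!
# Scalar part of the full Manickam-Miklos-Singhi step `n = 4k + T`

`t = T / k`, `h` = probability that the middle set is heavy, `q` = probability that both
halves are negative, `F` = minimal fraction of nonnegative `T`-subsets of a zero sum on `k + T`
points.  Everything follows from
* `(SP0)` `2 (2k-1) (k+T) q² (1-h) ≤ T h (1-q) ((2k+T-1) - (T+1) q)`  (two-level spectral bound),
* `(RF)`  `(1-h) + (T/(k+T)) (h-q) ≥ F (1+q)`                          (R-flow).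
-/

namespace Pool.Agent.Work.MP_9999b5_fin

/-- finite spectral bound implies the limit form -/
theorem SP_lim (k T q h : ℝ) (hk : 1 ≤ k) (hT : 0 < T) (hq : 0 ≤ q) (hqh : q ≤ h)
    (SP : 2 * (2 * k - 1) * (k + T) * q ^ 2 * (1 - h) ≤
      T * h * (1 - q) * ((2 * k + T - 1) - (T + 1) * q)) :
    4 * k * (k + T) * q ^ 2 * (1 - h) ≤ T * h * (1 - q) * (2 * k + T - T * q) := by
  -- (2k+T-1) * (limit) = (2k+T) * (finite) + T (2k+2T) q (q - h)
  have hm1 : 0 < 2 * k + T - 1 := by linarith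
  have key : (2 * k + T - 1) * (T * h * (1 - q) * (2 * k + T - T * q) -
      4 * k * (k + T) * q ^ 2 * (1 - h)) =
      (2 * k + T) * (T * h * (1 - q) * ((2 * k + T - 1) - (T + 1) * q) -
        2 * (2 * k - 1) * (k + T) * q ^ 2 * (1 - h)) +
      T * (2 * k + 2 * T) * q * (h - q) := by ring
  have h1 : 0 ≤ (2 * k + T - 1) * (T * h * (1 - q) * (2 * k + T - T * q) -
      4 * k * (k + T) * q ^ 2 * (1 - h)) := by
    rw [key]
    have h2 : 0 ≤ (2 * k + T) * (T * h * (1 - q) * ((2 * k + T - 1) - (T + 1) * q) -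
        2 * (2 * k - 1) * (k + T) * q ^ 2 * (1 - h)) :=
      mul_nonneg (by linarith) (by linarith)
    have h3 : 0 ≤ T * (2 * k + 2 * T) * q * (h - q) :=
      mul_nonneg (mul_nonneg (mul_nonneg hT.le (by linarith)) hq) (by linarith)
    linarith
  have h4 := nonneg_of_mul_nonneg_right h1 hm1
  linarith

/-- the limit form in the variable `t = T / k` -/
theorem SP_t (k T q h : ℝ) (hk : 1 ≤ k) (hT : 0 < T) (hq : 0 ≤ q) (hqh : q ≤ h)
    (SP : 2 * (2 * k - 1) * (k + T) * q ^ 2 * (1 - h) ≤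
      T * h * (1 - q) * ((2 * k + T - 1) - (T + 1) * q)) :
    4 * (1 + T / k) * q ^ 2 * (1 - h) ≤
      (T / k) * h * (1 - q) * (2 + T / k - (T / k) * q) := by
  have h1 := SP_lim k T q h hk hT hq hqh SP
  have hk0 : 0 < k := by linarith
  have e1 : 4 * k * (k + T) * q ^ 2 * (1 - h) =
      k ^ 2 * (4 * (1 + T / k) * q ^ 2 * (1 - h)) := by field_simp
  have e2 : T * h * (1 - q) * (2 * k + T - T * q) =
      k ^ 2 * ((T / k) * h * (1 - q) * (2 + T / k - (T / k) * q)) := by field_simp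
  rw [e1, e2] at h1
  exact le_of_mul_le_mul_left h1 (by positivity)

/-- R-flow in the variable `t` -/
theorem RF_t (k T q h F : ℝ) (hk : 1 ≤ k) (hT : 0 < T)
    (RF : F * (1 + q) ≤ (1 - h) + (T / (k + T)) * (h - q)) :
    F * (1 + q) * (1 + T / k) ≤ (1 - h) * (1 + T / k) + (T / k) * (h - q) := by
  have hk0 : 0 < k := by linarith
  have hkT : 0 < k + T := by linarith
  have e : (T / (k + T)) * (1 + T / k) = T / k := by field_simp
  have h1 : 0 ≤ 1 + T / k := by positivity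
  have h2 := mul_le_mul_of_nonneg_right RF h1
  have e2 : ((1 - h) + (T / (k + T)) * (h - q)) * (1 + T / k) =
      (1 - h) * (1 + T / k) + ((T / (k + T)) * (1 + T / k)) * (h - q) := by ring
  rw [e2, e] at h2
  exact h2

/-- the general contradiction scheme: `q ≤ q0` as soon as one polynomial inequality holds -/
theorem P_gen (t q h F q0 : ℝ) (ht : 0 < t) (hq0 : 0 < q0) (hq01 : q0 < 1)
    (hqh : q ≤ h) (hh : h ≤ 1) (hF : 0 ≤ F)
    (SP : 4 * (1 + t) * q ^ 2 * (1 - h) ≤ t * h * (1 - q) * (2 + t - t * q))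
    (RF : F * (1 + q) * (1 + t) ≤ (1 - h) * (1 + t) + t * (h - q))
    (G : t * ((1 + t) * (1 - F) - ((1 + t) * F + t) * q0) * (1 - q0) * (2 + t - t * q0) <
      4 * (1 + t) * q0 ^ 2 * ((1 + t) * F * (1 + q0) - t * (1 - q0))) :
    q ≤ q0 := by
  by_contra hcon
  push Not at hcon
  have hq1 : q ≤ 1 := le_trans hqh hh
  have hh0 : 0 ≤ h := by linarith
  -- h ≤ h1
  have hh1 : h ≤ (1 + t) * (1 - F) - ((1 + t) * F + t) * q0 := by
    have : 0 ≤ ((1 + t) * F + t) * (q - q0) := by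
      apply mul_nonneg
      · have := mul_nonneg (by linarith : (0:ℝ) ≤ 1 + t) hF
        linarith
      · linarith
    nlinarith [this, RF]
  -- monotonicity in q of both sides
  have m1 : 4 * (1 + t) * q0 ^ 2 * (1 - h) ≤ 4 * (1 + t) * q ^ 2 * (1 - h) := by
    apply mul_le_mul_of_nonneg_right _ (by linarith)
    apply mul_le_mul_of_nonneg_left _ (by linarith)
    exact pow_le_pow_left₀ hq0.le hcon.le 2
  have m2 : t * h * (1 - q) * (2 + t - t * q) ≤ t * h * (1 - q0) * (2 + t - t * q0) := by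
    have a1 : t * h * (1 - q) ≤ t * h * (1 - q0) :=
      mul_le_mul_of_nonneg_left (by linarith) (mul_nonneg ht.le hh0)
    have a2 : 2 + t - t * q ≤ 2 + t - t * q0 := by nlinarith
    have a3 : 0 ≤ 2 + t - t * q := by nlinarith
    have a4 : 0 ≤ t * h * (1 - q0) := mul_nonneg (mul_nonneg ht.le hh0) (by linarith)
    exact mul_le_mul a1 a2 a3 a4
  have m3 : 4 * (1 + t) * q0 ^ 2 * (1 - h) ≤ t * h * (1 - q0) * (2 + t - t * q0) :=
    le_trans m1 (le_trans SP m2)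
  set h1 := (1 + t) * (1 - F) - ((1 + t) * F + t) * q0 with hh1def
  have e1 : (1 + t) * F * (1 + q0) - t * (1 - q0) = 1 - h1 := by rw [hh1def]; ring
  rw [e1] at G
  have c1 : 0 < 4 * (1 + t) * q0 ^ 2 := by positivity
  have c2 : 0 < t * (1 - q0) * (2 + t - t * q0) := by
    apply mul_pos (mul_pos ht (by linarith))
    nlinarith
  have c3 : t * h1 * (1 - q0) * (2 + t - t * q0) = (t * (1 - q0) * (2 + t - t * q0)) * h1 := by
    ring
  have c4 : t * h * (1 - q0) * (2 + t - t * q0) = (t * (1 - q0) * (2 + t - t * q0)) * h := by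
    ring
  rw [c3] at G
  rw [c4] at m3
  nlinarith [mul_le_mul_of_nonneg_left hh1 c1.le, mul_le_mul_of_nonneg_left hh1 c2.le]

/-- the lower bound for `F = f_T(k+T)` used when `T > k/3`, as a relation between `t` and `F` -/
def Fok (t F : ℝ) : Prop :=
  (t < 3 / 7 ∧ 11 / 61 ≤ F) ∨ (3 / 7 ≤ t ∧ t ≤ 1 / 2 ∧ 1 / 5 ≤ F) ∨
    (1 / 2 ≤ t ∧ t < 3 / 4 ∧ 11 / 50 ≤ F) ∨ (3 / 4 ≤ t ∧ 1 / 4 ≤ F)

/-- `(P)` for `T ≤ k/3` -/
theorem P_one (t q h F : ℝ) (ht : 0 < t) (ht3 : t ≤ 1 / 3) (hqh : q ≤ h) (hh : h ≤ 1)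
    (hF : t / (1 + t) ≤ F)
    (SP : 4 * (1 + t) * q ^ 2 * (1 - h) ≤ t * h * (1 - q) * (2 + t - t * q))
    (RF : F * (1 + q) * (1 + t) ≤ (1 - h) * (1 + t) + t * (h - q)) (hq : 0 ≤ q) :
    q ≤ 1 / 2 := by
  have hF' : t ≤ F * (1 + t) := by
    rwa [div_le_iff₀ (by linarith)] at hF
  have RF' : (t / (1 + t)) * (1 + q) * (1 + t) ≤ (1 - h) * (1 + t) + t * (h - q) := by
    have : (t / (1 + t)) * (1 + q) * (1 + t) = t * (1 + q) := by field_simp
    rw [this]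
    have := mul_le_mul_of_nonneg_right hF' (by linarith : (0:ℝ) ≤ 1 + q)
    nlinarith
  refine P_gen t q h (t / (1 + t)) (1 / 2) ht (by norm_num) (by norm_num) hqh hh
    (by positivity) SP RF' ?_
  have e1 : (1 + t) * (t / (1 + t)) = t := by field_simp
  have e2 : (1 + t) * (1 - t / (1 + t)) = 1 := by field_simp; ring
  rw [e1, e2]
  nlinarith [mul_pos ht ht, mul_pos (mul_pos ht ht) ht]

/-- `(P)` for `T > k/3` -/
theorem P_two (t q h F : ℝ) (ht3 : 1 / 3 ≤ t) (ht1 : t ≤ 1) (hqh : q ≤ h) (hh : h ≤ 1)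
    (hF : Fok t F)
    (SP : 4 * (1 + t) * q ^ 2 * (1 - h) ≤ t * h * (1 - q) * (2 + t - t * q))
    (RF : F * (1 + q) * (1 + t) ≤ (1 - h) * (1 + t) + t * (h - q)) (hq : 0 ≤ q) :
    q ≤ 14 / 25 := by
  have ht : 0 < t := by linarith
  have hmono : ∀ F0 : ℝ, 0 ≤ F0 → F0 ≤ F →
      F0 * (1 + q) * (1 + t) ≤ (1 - h) * (1 + t) + t * (h - q) := by
    intro F0 h0 h1
    refine le_trans ?_ RF
    have : 0 ≤ (1 + q) * (1 + t) := by positivity
    nlinarith
  rcases hF with ⟨a, b⟩ | ⟨a, b, c⟩ | ⟨a, b, c⟩ | ⟨a, b⟩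
  · refine P_gen t q h (11 / 61) (14 / 25) ht (by norm_num) (by norm_num) hqh hh
      (by norm_num) SP (hmono _ (by norm_num) b) ?_
    nlinarith [mul_nonneg (sub_nonneg.2 ht3) (sub_nonneg.2 a.le),
      mul_nonneg (mul_nonneg (sub_nonneg.2 ht3) (sub_nonneg.2 a.le)) ht.le]
  · refine P_gen t q h (1 / 5) (14 / 25) ht (by norm_num) (by norm_num) hqh hh
      (by norm_num) SP (hmono _ (by norm_num) c) ?_
    nlinarith [mul_nonneg (sub_nonneg.2 a) (sub_nonneg.2 b),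
      mul_nonneg (mul_nonneg (sub_nonneg.2 a) (sub_nonneg.2 b)) ht.le]
  · refine P_gen t q h (11 / 50) (14 / 25) ht (by norm_num) (by norm_num) hqh hh
      (by norm_num) SP (hmono _ (by norm_num) c) ?_
    nlinarith [mul_nonneg (sub_nonneg.2 a) (sub_nonneg.2 b.le),
      mul_nonneg (mul_nonneg (sub_nonneg.2 a) (sub_nonneg.2 b.le)) ht.le]
  · refine P_gen t q h (1 / 4) (14 / 25) ht (by norm_num) (by norm_num) hqh hh
      (by norm_num) SP (hmono _ (by norm_num) b) ?_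
    nlinarith [mul_nonneg (sub_nonneg.2 a) (sub_nonneg.2 ht1),
      mul_nonneg (mul_nonneg (sub_nonneg.2 a) (sub_nonneg.2 ht1)) ht.le]

/-- `(QL)` from the limit form of the spectral bound, if `E ≤ Λ (2+t)² q (1-q)` -/
theorem QL_gen (t q h L : ℝ) (ht : 0 < t) (hq : 0 ≤ q) (hqh : q ≤ h) (hh : h ≤ 1) (hL : 0 ≤ L)
    (SP : 4 * (1 + t) * q ^ 2 * (1 - h) ≤ t * h * (1 - q) * (2 + t - t * q))
    (hE : t ≤ (2 + t) * q →
      4 * (1 + t) * q ^ 2 + t * (1 - q) * (2 + t - t * q) ≤ L * (2 + t) ^ 2 * (q * (1 - q))) :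
    (2 + t) * q - t ≤ L * (2 + t) * (h - q) := by
  rcases le_total ((2 + t) * q) t with hX | hX
  · have : 0 ≤ L * (2 + t) * (h - q) :=
      mul_nonneg (mul_nonneg hL (by linarith)) (by linarith)
    linarith
  · have hE' := hE hX
    have hq1 : q ≤ 1 := le_trans hqh hh
    have hX' : 0 ≤ (2 + t) * q - t := by linarith
    set E := 4 * (1 + t) * q ^ 2 + t * (1 - q) * (2 + t - t * q) with hEdef
    have hqpos : 0 < q := by
      by_contra hc
      push Not at hc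
      have : q = 0 := le_antisymm hc hq
      rw [this] at hX
      linarith
    have hE0 : 0 < E := by
      have a1 : 0 < 4 * (1 + t) * q ^ 2 := by positivity
      have a2 : 0 ≤ t * (1 - q) * (2 + t - t * q) := by
        apply mul_nonneg (mul_nonneg ht.le (by linarith))
        nlinarith
      linarith
    have k1 : q * (1 - q) * (2 + t) * ((2 + t) * q - t) ≤ (h - q) * E := by
      have : (h - q) * E - q * (1 - q) * (2 + t) * ((2 + t) * q - t) =
          t * h * (1 - q) * (2 + t - t * q) - 4 * (1 + t) * q ^ 2 * (1 - h) := by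
        rw [hEdef]; ring
      linarith
    have k2 : E * ((2 + t) * q - t) ≤ (L * (2 + t) * (h - q)) * E := by
      have b1 : E * ((2 + t) * q - t) ≤ (L * (2 + t) ^ 2 * (q * (1 - q))) * ((2 + t) * q - t) :=
        mul_le_mul_of_nonneg_right hE' hX'
      have b2 : (L * (2 + t)) * (q * (1 - q) * (2 + t) * ((2 + t) * q - t)) ≤
          (L * (2 + t)) * ((h - q) * E) :=
        mul_le_mul_of_nonneg_left k1 (mul_nonneg hL (by linarith))
      nlinarith [b1, b2]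
    have k3 : ((2 + t) * q - t) * E ≤ (L * (2 + t) * (h - q)) * E := by linarith
    exact le_of_mul_le_mul_right k3 hE0

/-- `(QL)` with `Λ = 5/4`, `T ≤ k/3` -/
theorem QL_one (t q h : ℝ) (ht : 0 < t) (ht3 : t ≤ 1 / 3) (hq : 0 ≤ q) (hqh : q ≤ h)
    (hh : h ≤ 1) (hq2 : q ≤ 1 / 2)
    (SP : 4 * (1 + t) * q ^ 2 * (1 - h) ≤ t * h * (1 - q) * (2 + t - t * q)) :
    (2 + t) * q - t ≤ 5 / 4 * (2 + t) * (h - q) := by
  refine QL_gen t q h (5 / 4) ht hq hqh hh (by norm_num) SP ?_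
  intro hX
  have h1 : 0 ≤ ((2 + t) * q - t) * (1 / 2 - q) := mul_nonneg (by linarith) (by linarith)
  nlinarith [mul_nonneg (by linarith : (0:ℝ) ≤ 2 + t) h1,
    mul_nonneg (sub_nonneg.2 hq2) ht.le, mul_nonneg (sub_nonneg.2 hX) ht.le,
    mul_nonneg (mul_nonneg (sub_nonneg.2 hq2) ht.le) (sub_nonneg.2 ht3),
    mul_nonneg (mul_nonneg (sub_nonneg.2 hX) ht.le) (sub_nonneg.2 ht3)]

/-- `(QL)` with `Λ = 33/20`, `T > k/3` -/
theorem QL_two (t q h : ℝ) (ht : 0 < t) (ht1 : t ≤ 1) (hq : 0 ≤ q) (hqh : q ≤ h)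
    (hh : h ≤ 1) (hq2 : q ≤ 14 / 25)
    (SP : 4 * (1 + t) * q ^ 2 * (1 - h) ≤ t * h * (1 - q) * (2 + t - t * q)) :
    (2 + t) * q - t ≤ 33 / 20 * (2 + t) * (h - q) := by
  refine QL_gen t q h (33 / 20) ht hq hqh hh (by norm_num) SP ?_
  intro hX
  have h1 : 0 ≤ ((2 + t) * q - t) * (14 / 25 - q) := mul_nonneg (by linarith) (by linarith)
  nlinarith [mul_nonneg (by linarith : (0:ℝ) ≤ 2 + t) h1,
    mul_nonneg (sub_nonneg.2 hq2) ht.le, mul_nonneg (sub_nonneg.2 hX) ht.le,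
    mul_nonneg (mul_nonneg (sub_nonneg.2 hq2) ht.le) (sub_nonneg.2 ht1),
    mul_nonneg (mul_nonneg (sub_nonneg.2 hX) ht.le) (sub_nonneg.2 ht1)]

/-- `(HL)` with `Λ = 5/4`, `T ≤ k/3` -/
theorem HL_one (t q h : ℝ) (ht : 0 < t) (ht3 : t ≤ 1 / 3) (hq : 0 ≤ q) (hh : h ≤ 1)
    (hq2 : q ≤ 1 / 2) :
    5 / 4 * q * (4 * (2 + t)) ≤ (12 + 5 * t) * (2 - h - q) := by
  nlinarith [mul_nonneg ht.le (sub_nonneg.2 hh), mul_nonneg ht.le (sub_nonneg.2 hq2)]

/-- `(HL)` with `Λ = 33/20`, `T > k/3` -/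
theorem HL_two (t q h F : ℝ) (ht3 : 1 / 3 ≤ t) (ht1 : t ≤ 1) (hq : 0 ≤ q) (hqh : q ≤ h)
    (hh : h ≤ 1) (hq2 : q ≤ 14 / 25) (hF : Fok t F)
    (RF : F * (1 + q) * (1 + t) ≤ (1 - h) * (1 + t) + t * (h - q)) :
    33 / 20 * q * (4 * (2 + t)) ≤ (12 + 5 * t) * (2 - h - q) := by
  have ht : 0 < t := by linarith
  have hmono : ∀ F0 : ℝ, 0 ≤ F0 → F0 ≤ F →
      h ≤ (1 + t) * (1 - F0) - ((1 + t) * F0 + t) * q := by
    intro F0 h0 h1
    have : F0 * (1 + q) * (1 + t) ≤ F * (1 + q) * (1 + t) := by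
      have : 0 ≤ (1 + q) * (1 + t) := by positivity
      nlinarith
    nlinarith
  have h12 : 0 ≤ 12 + 5 * t := by linarith
  rcases hF with ⟨a, b⟩ | ⟨a, b, c⟩ | ⟨a, b, c⟩ | ⟨a, b⟩
  · have h1 := mul_nonneg h12 (sub_nonneg.2 (hmono (11 / 61) (by norm_num) b))
    nlinarith [mul_nonneg hq (sub_nonneg.2 ht3), mul_nonneg hq (sub_nonneg.2 a.le),
      mul_nonneg (sub_nonneg.2 hq2) (sub_nonneg.2 ht3),
      mul_nonneg (sub_nonneg.2 hq2) (sub_nonneg.2 a.le),
      mul_nonneg (sub_nonneg.2 ht3) (sub_nonneg.2 a.le),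
      mul_nonneg hq (mul_nonneg (sub_nonneg.2 ht3) (sub_nonneg.2 a.le)),
      mul_nonneg (sub_nonneg.2 hq2) (mul_nonneg (sub_nonneg.2 ht3) (sub_nonneg.2 a.le))]
  · have h1 := mul_nonneg h12 (sub_nonneg.2 (hmono (1 / 5) (by norm_num) c))
    nlinarith [mul_nonneg hq (sub_nonneg.2 a), mul_nonneg hq (sub_nonneg.2 b),
      mul_nonneg (sub_nonneg.2 hq2) (sub_nonneg.2 a),
      mul_nonneg (sub_nonneg.2 hq2) (sub_nonneg.2 b),
      mul_nonneg (sub_nonneg.2 a) (sub_nonneg.2 b),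
      mul_nonneg hq (mul_nonneg (sub_nonneg.2 a) (sub_nonneg.2 b)),
      mul_nonneg (sub_nonneg.2 hq2) (mul_nonneg (sub_nonneg.2 a) (sub_nonneg.2 b))]
  · have h1 := mul_nonneg h12 (sub_nonneg.2 (hmono (11 / 50) (by norm_num) c))
    nlinarith [mul_nonneg hq (sub_nonneg.2 a), mul_nonneg hq (sub_nonneg.2 b.le),
      mul_nonneg (sub_nonneg.2 hq2) (sub_nonneg.2 a),
      mul_nonneg (sub_nonneg.2 hq2) (sub_nonneg.2 b.le),
      mul_nonneg (sub_nonneg.2 a) (sub_nonneg.2 b.le),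
      mul_nonneg hq (mul_nonneg (sub_nonneg.2 a) (sub_nonneg.2 b.le)),
      mul_nonneg (sub_nonneg.2 hq2) (mul_nonneg (sub_nonneg.2 a) (sub_nonneg.2 b.le))]
  · have h1 := mul_nonneg h12 (sub_nonneg.2 (hmono (1 / 4) (by norm_num) b))
    nlinarith [mul_nonneg hq (sub_nonneg.2 a), mul_nonneg hq (sub_nonneg.2 ht1),
      mul_nonneg (sub_nonneg.2 hq2) (sub_nonneg.2 a),
      mul_nonneg (sub_nonneg.2 hq2) (sub_nonneg.2 ht1),
      mul_nonneg (sub_nonneg.2 a) (sub_nonneg.2 ht1),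
      mul_nonneg hq (mul_nonneg (sub_nonneg.2 a) (sub_nonneg.2 ht1)),
      mul_nonneg (sub_nonneg.2 hq2) (mul_nonneg (sub_nonneg.2 a) (sub_nonneg.2 ht1))]

/-- **Scalar theorem, `T ≤ k/3`.** -/
theorem scal_one (k T q h F : ℝ) (hk : 1 ≤ k) (hT : 0 < T) (hT3 : 3 * T ≤ k) (hq : 0 ≤ q)
    (hqh : q ≤ h) (hh : h ≤ 1) (hF : T / (k + T) ≤ F)
    (SP : 2 * (2 * k - 1) * (k + T) * q ^ 2 * (1 - h) ≤
      T * h * (1 - q) * ((2 * k + T - 1) - (T + 1) * q))
    (RF : F * (1 + q) ≤ (1 - h) + (T / (k + T)) * (h - q)) :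
    q ≤ 1 / 2 ∧ q - T / (2 * k + T) ≤ 5 / 4 * (h - q) ∧
      5 / 4 * q ≤ 3 / 2 * (1 - T / (2 * k + T) / 6) * (2 - h - q) := by
  have hk0 : 0 < k := by linarith
  have ht : 0 < T / k := by positivity
  have ht3 : T / k ≤ 1 / 3 := by rw [div_le_iff₀ hk0]; linarith
  have SPt := SP_t k T q h hk hT hq hqh SP
  have RFt := RF_t k T q h F hk hT RF
  have hF' : (T / k) / (1 + T / k) ≤ F := by
    have : (T / k) / (1 + T / k) = T / (k + T) := by field_simp
    rw [this]; exact hF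
  have p := P_one (T / k) q h F ht ht3 hqh hh hF' SPt RFt hq
  have ql := QL_one (T / k) q h ht ht3 hq hqh hh p SPt
  have hl := HL_one (T / k) q h ht ht3 hq hh p
  have e : 2 * k + T = k * (2 + T / k) := by field_simp
  have e2 : T / (2 * k + T) = (T / k) / (2 + T / k) := by rw [e]; field_simp
  have h2 : 0 < 2 + T / k := by positivity
  refine ⟨p, ?_, ?_⟩
  · rw [e2]
    have : (2 + T / k) * (q - (T / k) / (2 + T / k)) = (2 + T / k) * q - T / k := by field_simp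
    have h3 : (2 + T / k) * (q - (T / k) / (2 + T / k)) ≤ (2 + T / k) * (5 / 4 * (h - q)) := by
      rw [this]; linarith
    exact le_of_mul_le_mul_left h3 h2
  · rw [e2]
    have : (4 * (2 + T / k)) * (3 / 2 * (1 - (T / k) / (2 + T / k) / 6) * (2 - h - q)) =
        (12 + 5 * (T / k)) * (2 - h - q) := by field_simp; ring
    have h3 : (4 * (2 + T / k)) * (5 / 4 * q) ≤
        (4 * (2 + T / k)) * (3 / 2 * (1 - (T / k) / (2 + T / k) / 6) * (2 - h - q)) := by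
      rw [this]; linarith
    exact le_of_mul_le_mul_left h3 (by positivity)

/-- **Scalar theorem, `k/3 < T < k`.** -/
theorem scal_two (k T q h F : ℝ) (hk : 1 ≤ k) (hT3 : k ≤ 3 * T) (hTk : T ≤ k) (hq : 0 ≤ q)
    (hqh : q ≤ h) (hh : h ≤ 1) (hF : Fok (T / k) F)
    (SP : 2 * (2 * k - 1) * (k + T) * q ^ 2 * (1 - h) ≤
      T * h * (1 - q) * ((2 * k + T - 1) - (T + 1) * q))
    (RF : F * (1 + q) ≤ (1 - h) + (T / (k + T)) * (h - q)) :
    q ≤ 14 / 25 ∧ q - T / (2 * k + T) ≤ 33 / 20 * (h - q) ∧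
      33 / 20 * q ≤ 3 / 2 * (1 - T / (2 * k + T) / 6) * (2 - h - q) := by
  have hk0 : 0 < k := by linarith
  have hT : 0 < T := by linarith
  have ht : 0 < T / k := by positivity
  have ht3 : 1 / 3 ≤ T / k := by rw [le_div_iff₀ hk0]; linarith
  have ht1 : T / k ≤ 1 := by rw [div_le_iff₀ hk0]; linarith
  have SPt := SP_t k T q h hk hT hq hqh SP
  have RFt := RF_t k T q h F hk hT RF
  have p := P_two (T / k) q h F ht3 ht1 hqh hh hF SPt RFt hq
  have ql := QL_two (T / k) q h ht ht1 hq hqh hh p SPt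
  have hl := HL_two (T / k) q h F ht3 ht1 hq hqh hh p hF RFt
  have e : 2 * k + T = k * (2 + T / k) := by field_simp
  have e2 : T / (2 * k + T) = (T / k) / (2 + T / k) := by rw [e]; field_simp
  have h2 : 0 < 2 + T / k := by positivity
  refine ⟨p, ?_, ?_⟩
  · rw [e2]
    have : (2 + T / k) * (q - (T / k) / (2 + T / k)) = (2 + T / k) * q - T / k := by field_simp
    have h3 : (2 + T / k) * (q - (T / k) / (2 + T / k)) ≤ (2 + T / k) * (33 / 20 * (h - q)) := by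
      rw [this]; linarith
    exact le_of_mul_le_mul_left h3 h2
  · rw [e2]
    have : (4 * (2 + T / k)) * (3 / 2 * (1 - (T / k) / (2 + T / k) / 6) * (2 - h - q)) =
        (12 + 5 * (T / k)) * (2 - h - q) := by field_simp; ring
    have h3 : (4 * (2 + T / k)) * (33 / 20 * q) ≤
        (4 * (2 + T / k)) * (3 / 2 * (1 - (T / k) / (2 + T / k) / 6) * (2 - h - q)) := by
      rw [this]; linarith
    exact le_of_mul_le_mul_left h3 (by positivity)

end Pool.Agent.Work.MP_9999b5_fin
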