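import Pool.Agent.Work.MP_9999b5_sp.B_EX2
import Pool.Agent.Work.MP_9999b5_sp.B_ZE2
import Pool.Agent.Work.MP_9999b5_sp.B_SHF
import Pool.Agent.Work.MP_9999b5_sp.B_PRT
import Pool.Agent.Work.MP_9999b5_mr.B_PAI

/-!
MP_9999b5_co (helper2): the strict R-flow inequality (helper49's flow; strict version of helper54).
-/

set_option autoImplicit false

namespace Pool.Agent.Work.MP_9999b5_fin

open Finset
open Pool.Agent.Work

/-! ### positive total: one set `A = C \ B₂` -/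

theorem RST_pos {ι : Type} [DecidableEq ι] (k T : ℕ) (φ c : ℝ) (hk : 1 ≤ k) (hT : 1 ≤ T)
    (hWP : MP_9999b5_sp.WP T (k + T) φ) (A : Finset ι) (x : ι → ℝ) (hA : A.card = k + T)
    (hc : 0 < c) :
    φ * (k + T) * ((k + T).choose T : ℝ) ≤
      k * (((A.powersetCard T).filter (fun K => ∑ i ∈ K, x i < c)).card : ℝ) +
      T * (((A.powersetCard T).filter (fun K => ∑ i ∈ K, x i < ∑ i ∈ A, x i)).card : ℝ) := by
  set u := ∑ i ∈ A, x i with hu
  set F1 := (A.powersetCard T).filter (fun K => ∑ i ∈ K, x i < c) with hF1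
  set F2 := (A.powersetCard T).filter (fun K => ∑ i ∈ K, x i < u) with hF2
  have hT1 : (1 : ℝ) ≤ (T : ℝ) := by exact_mod_cast hT
  have hk1 : (1 : ℝ) ≤ (k : ℝ) := by exact_mod_cast hk
  obtain ⟨e, he, heT⟩ : ∃ e : ℝ, 0 < e ∧ T * e < c := by
    refine ⟨c / (2 * T), by positivity, ?_⟩
    have : (T : ℝ) * (c / (2 * T)) = c / 2 := by field_simp
    rw [this]; linarith
  have key : ∀ z ∈ A, φ * ((k + T).choose T : ℝ) ≤
      (((F1.filter (fun K => z ∉ K)).card + (F2.filter (fun K => z ∈ K)).card : ℕ) : ℝ) := by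
    intro z hz
    have hyK : ∀ K : Finset ι, ∑ i ∈ K, (-x i + e + (if i = z then u - (k + T) * e else 0)) =
        -(∑ i ∈ K, x i) + K.card * e + (if z ∈ K then u - (k + T) * e else 0) := by
      intro K
      rw [Finset.sum_add_distrib, Finset.sum_add_distrib, Finset.sum_neg_distrib,
        Finset.sum_const, nsmul_eq_mul, Finset.sum_ite_eq']
    have h1 := hWP ι A (fun i => -x i + e + (if i = z then u - (k + T) * e else 0)) hA (by
      rw [hyK A, if_pos hz, hA, ← hu]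
      push_cast
      linarith)
    refine h1.trans ?_
    apply Nat.cast_le.2
    refine (Finset.card_le_card ?_).trans (Finset.card_union_le _ _)
    intro K hK
    obtain ⟨hK1, hK2⟩ := Finset.mem_filter.1 hK
    obtain ⟨-, hK3⟩ := Finset.mem_powersetCard.1 hK1
    rw [hyK K, hK3] at hK2
    rw [Finset.mem_union]
    by_cases hzK : z ∈ K
    · right
      rw [if_pos hzK] at hK2
      have h2 : ∑ i ∈ K, x i < u := by
        have : 0 < (k : ℝ) * e := by positivity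
        nlinarith
      exact Finset.mem_filter.2 ⟨Finset.mem_filter.2 ⟨hK1, h2⟩, hzK⟩
    · left
      rw [if_neg hzK] at hK2
      have h2 : ∑ i ∈ K, x i < c := by linarith
      exact Finset.mem_filter.2 ⟨Finset.mem_filter.2 ⟨hK1, h2⟩, hzK⟩
  have hs := Finset.sum_le_sum key
  rw [Finset.sum_const, nsmul_eq_mul, hA, ← Nat.cast_sum, Finset.sum_add_distrib] at hs
  have c1 : ∑ z ∈ A, (F1.filter (fun K => z ∉ K)).card = k * F1.card := by
    apply MP_9999b5_sp.SHF_count A F1 (fun z K => z ∉ K) k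
    intro K hK
    obtain ⟨hK1, hK2⟩ := Finset.mem_powersetCard.1 (Finset.mem_filter.1 hK).1
    have : A.filter (fun z => z ∉ K) = A \ K := by
      ext i
      rw [Finset.mem_filter, Finset.mem_sdiff]
    rw [this, Finset.card_sdiff_of_subset hK1, hA, hK2]
    omega
  have c2 : ∑ z ∈ A, (F2.filter (fun K => z ∈ K)).card = T * F2.card := by
    apply MP_9999b5_sp.SHF_count A F2 (fun z K => z ∈ K) T
    intro K hK
    obtain ⟨hK1, hK2⟩ := Finset.mem_powersetCard.1 (Finset.mem_filter.1 hK).1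
    have : A.filter (fun z => z ∈ K) = K := by
      ext i
      rw [Finset.mem_filter]
      exact ⟨fun h => h.2, fun h => ⟨hK1 h, h⟩⟩
    rw [this, hK2]
  rw [c1, c2] at hs
  push_cast at hs
  linarith

/-! ### total zero: one set `A = C \ B₂` -/

theorem RST_wt {ι : Type} [DecidableEq ι] (A K : Finset ι) (k T : ℕ) (a b c : ℝ) (hA : A.card = k + T)
    (hK : K ⊆ A) (hKT : K.card = T) :
    ∑ z ∈ A, ∑ v ∈ A.erase z, (if z ∈ K then c else if v ∈ K then b else a) =
      T * (k + T - 1) * c + k * (T * b + (k - 1) * a) := by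
  have hsplit : ∑ z ∈ A, ∑ v ∈ A.erase z, (if z ∈ K then c else if v ∈ K then b else a) =
      ∑ z ∈ A \ K, ∑ v ∈ A.erase z, (if z ∈ K then c else if v ∈ K then b else a) +
      ∑ z ∈ K, ∑ v ∈ A.erase z, (if z ∈ K then c else if v ∈ K then b else a) :=
    (Finset.sum_sdiff hK).symm
  have h1 : ∀ z ∈ K, ∑ v ∈ A.erase z, (if z ∈ K then c else if v ∈ K then b else a) =
      (k + T - 1) * c := by
    intro z hz
    have : ∀ v ∈ A.erase z, (if z ∈ K then c else if v ∈ K then b else a) = c := by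
      intro v _
      rw [if_pos hz]
    rw [Finset.sum_congr rfl this, Finset.sum_const, nsmul_eq_mul,
      Finset.card_erase_of_mem (hK hz), hA]
    have hpos : 1 ≤ k + T := by
      rw [← hA]; exact Finset.card_pos.2 ⟨z, hK hz⟩
    rw [Nat.cast_sub hpos]
    push_cast
    ring
  have h2 : ∀ z ∈ A \ K, ∑ v ∈ A.erase z, (if z ∈ K then c else if v ∈ K then b else a) =
      T * b + (k - 1) * a := by
    intro z hz
    obtain ⟨hz1, hz2⟩ := Finset.mem_sdiff.1 hz
    have : ∀ v ∈ A.erase z, (if z ∈ K then c else if v ∈ K then b else a) =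
        if v ∈ K then b else a := by
      intro v _
      rw [if_neg hz2]
    rw [Finset.sum_congr rfl this, Finset.sum_ite, Finset.sum_const, Finset.sum_const,
      nsmul_eq_mul, nsmul_eq_mul]
    have e1 : (A.erase z).filter (fun v => v ∈ K) = K := by
      ext v
      rw [Finset.mem_filter, Finset.mem_erase]
      constructor
      · exact fun h => h.2
      · intro h
        exact ⟨⟨fun h' => hz2 (h' ▸ h), hK h⟩, h⟩
    have e2 : (A.erase z).filter (fun v => ¬ v ∈ K) = (A \ K).erase z := by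
      ext v
      rw [Finset.mem_filter, Finset.mem_erase, Finset.mem_erase, Finset.mem_sdiff]
      tauto
    rw [e1, e2, hKT, Finset.card_erase_of_mem hz, Finset.card_sdiff_of_subset hK, hA, hKT]
    have hpos : 1 ≤ k := by
      have h3 : 0 < (A \ K).card := Finset.card_pos.2 ⟨z, hz⟩
      rw [Finset.card_sdiff_of_subset hK, hA, hKT] at h3
      omega
    have e3 : k + T - T - 1 = k - 1 := by omega
    rw [e3, Nat.cast_sub hpos]
    push_cast
    ring
  rw [hsplit, Finset.sum_congr rfl h1, Finset.sum_congr rfl h2, Finset.sum_const, Finset.sum_const,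
    nsmul_eq_mul, nsmul_eq_mul, Finset.card_sdiff_of_subset hK, hA, hKT]
  have e4 : k + T - T = k := by omega
  rw [e4]
  ring

open Topology in
theorem RST_zv {ι : Type} [DecidableEq ι] (k T : ℕ) (φ : ℝ)
    (hW : MaxSums.W T (k + T) φ) (A : Finset ι) (x : ι → ℝ) (hA : A.card = k + T)
    (hinj : Set.InjOn x A) (z v : ι) (hz : z ∈ A) (hv : v ∈ A) (hzv : z ≠ v) :
    φ * ((k + T).choose T : ℝ) ≤ ∑ K ∈ A.powersetCard T,
      (if z ∈ K then (if ∑ i ∈ K, x i < ∑ i ∈ A, x i then (1 : ℝ) else 0)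
        else if v ∈ K then (if ∑ i ∈ K, x i ≤ 0 then 1 else 0)
        else (if ∑ i ∈ K, x i < 0 then 1 else 0)) := by
  set u := ∑ i ∈ A, x i with hu
  obtain ⟨a, ha⟩ : ∃ a : ι → ℝ, a = fun i => -x i + (if i = z then u else 0) := ⟨_, rfl⟩
  obtain ⟨b, hb⟩ : ∃ b : ι → ℝ, b = fun i => (if i = v then (1 : ℝ) else 0) - (if i = z then 1 else 0) :=
    ⟨_, rfl⟩
  have h1 : ∀ᶠ ε in 𝓝[>] (0 : ℝ), ∀ i ∈ A, ∀ j ∈ A, i ≠ j → a i + ε * b i ≠ a j + ε * b j := by
    rw [Filter.eventually_all_finset]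
    intro i hi
    rw [Filter.eventually_all_finset]
    intro j hj
    by_cases hij : i = j
    · exact Filter.Eventually.of_forall (fun ε h => absurd hij h)
    · by_cases hbb : b i = b j
      · have hiz : i ≠ z := by
          intro h
          subst h
          rw [hb] at hbb
          simp only [if_neg hzv, if_true] at hbb
          have hji : j ≠ i := fun h => hij h.symm
          rw [if_neg hji] at hbb
          by_cases hjv : j = v
          · rw [if_pos hjv] at hbb; norm_num at hbb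
          · rw [if_neg hjv] at hbb; norm_num at hbb
        have hjz : j ≠ z := by
          intro h
          subst h
          rw [hb] at hbb
          simp only [if_neg hzv, if_true] at hbb
          rw [if_neg hij] at hbb
          by_cases hiv : i = v
          · rw [if_pos hiv] at hbb; norm_num at hbb
          · rw [if_neg hiv] at hbb; norm_num at hbb
        refine Filter.Eventually.of_forall (fun ε _ h => ?_)
        rw [hbb] at h
        have h5 : a i = a j := by linarith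
        rw [ha] at h5
        simp only [if_neg hiz, if_neg hjz] at h5
        exact hij (hinj hi hj (by linarith))
      · filter_upwards [MP_9999b5_sp.PRT_ne (a i) (a j) (b i) (b j) hbb] with ε hε
        intro _
        exact hε
  have h2 : ∀ᶠ ε in 𝓝[>] (0 : ℝ), ∀ K ∈ A.powersetCard T, 0 < ∑ i ∈ K, x i →
      ε < ∑ i ∈ K, x i := by
    rw [Filter.eventually_all_finset]
    intro K _
    by_cases hK : 0 < ∑ i ∈ K, x i
    · have h6 : ∀ᶠ ε in 𝓝 (0 : ℝ), ε < ∑ i ∈ K, x i := Iio_mem_nhds hK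
      filter_upwards [h6.filter_mono (nhdsWithin_le_nhds (s := Set.Ioi (0 : ℝ)))] with ε hε
      intro _
      exact hε
    · exact Filter.Eventually.of_forall (fun ε h => absurd h hK)
  have h3 : ∀ᶠ ε in 𝓝[>] (0 : ℝ), 0 < ε := self_mem_nhdsWithin
  obtain ⟨ε, ⟨he1, he2⟩, he3⟩ := ((h1.and h2).and h3).exists
  have hyK : ∀ K : Finset ι, ∑ i ∈ K, (a i + ε * b i) =
      -(∑ i ∈ K, x i) + (if z ∈ K then u - ε else 0) + (if v ∈ K then ε else 0) := by
    intro K
    rw [Finset.sum_add_distrib, ← Finset.mul_sum, ha, hb]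
    simp only
    rw [Finset.sum_add_distrib, Finset.sum_neg_distrib, Finset.sum_ite_eq', Finset.sum_sub_distrib,
      Finset.sum_ite_eq', Finset.sum_ite_eq']
    by_cases hzK : z ∈ K <;> by_cases hvK : v ∈ K <;> simp [hzK, hvK] <;> ring
  have hmain := hW ι A (fun i => a i + ε * b i) hA (by
      intro i hi j hj hij
      by_contra hne
      exact he1 i hi j hj hne hij) (by
      rw [hyK A, if_pos hz, if_pos hv, ← hu]
      linarith)
  refine hmain.trans ?_
  unfold MaxSums.pos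
  rw [Finset.card_filter, Nat.cast_sum]
  apply Finset.sum_le_sum
  intro K hK
  rw [hyK K]
  by_cases hp : 0 < -(∑ i ∈ K, x i) + (if z ∈ K then u - ε else 0) + (if v ∈ K then ε else 0)
  · rw [if_pos hp]
    by_cases hzK : z ∈ K
    · rw [if_pos hzK] at hp ⊢
      have : ∑ i ∈ K, x i < u := by
        by_cases hvK : v ∈ K
        · rw [if_pos hvK] at hp; linarith
        · rw [if_neg hvK] at hp; linarith
      rw [if_pos this]
      norm_num
    · rw [if_neg hzK] at hp ⊢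
      by_cases hvK : v ∈ K
      · rw [if_pos hvK] at hp ⊢
        have : ∑ i ∈ K, x i ≤ 0 := by
          by_contra hcon
          rw [not_le] at hcon
          have := he2 K hK hcon
          linarith
        rw [if_pos this]
        norm_num
      · rw [if_neg hvK] at hp ⊢
        have : ∑ i ∈ K, x i < 0 := by linarith
        rw [if_pos this]
        norm_num
  · rw [if_neg hp]
    split_ifs <;> norm_num

theorem RST_zero {ι : Type} [DecidableEq ι] (k T : ℕ) (φ : ℝ) (hk : 1 ≤ k) (hT : 1 ≤ T)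
    (hW : MaxSums.W T (k + T) φ) (A : Finset ι) (x : ι → ℝ) (hA : A.card = k + T)
    (hinj : Set.InjOn x A) (hu0 : 0 ≤ ∑ i ∈ A, x i) :
    φ * ((k + T : ℝ) * (k + T - 1)) * ((k + T).choose T : ℝ) ≤
      k * (k + T - 1) * (((A.powersetCard T).filter (fun K => ∑ i ∈ K, x i < 0)).card : ℝ) +
      k * T * (((A.powersetCard T).filter
        (fun K => ∑ i ∈ K, x i = 0 ∧ 0 < ∑ i ∈ A, x i)).card : ℝ) +
      T * (k + T - 1) * (((A.powersetCard T).filter
        (fun K => ∑ i ∈ K, x i < ∑ i ∈ A, x i)).card : ℝ) := by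
  have hT1 : (1 : ℝ) ≤ (T : ℝ) := by exact_mod_cast hT
  have hk1 : (1 : ℝ) ≤ (k : ℝ) := by exact_mod_cast hk
  rcases eq_or_lt_of_le hu0 with hu | hu
  · -- total zero
    rw [← hu]
    have h1 := hW ι A (fun i => -x i) hA (by
      intro i hi j hj hij
      exact hinj hi hj (neg_injective hij)) (by
      rw [Finset.sum_neg_distrib, ← hu, neg_zero])
    have h2 : MaxSums.pos (fun i => -x i) A T =
        ((A.powersetCard T).filter (fun K => ∑ i ∈ K, x i < 0)).card := by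
      unfold MaxSums.pos
      congr 1
      apply Finset.filter_congr
      intro K _
      rw [Finset.sum_neg_distrib]
      constructor
      · intro h; linarith
      · intro h; linarith
    rw [h2] at h1
    obtain ⟨s, hs⟩ : ∃ s : ℝ, s = (((A.powersetCard T).filter (fun K => ∑ i ∈ K, x i < 0)).card : ℝ) :=
      ⟨_, rfl⟩
    rw [← hs] at h1 ⊢
    have h0 : 0 ≤ (k : ℝ) * T * (((A.powersetCard T).filter
        (fun K => ∑ i ∈ K, x i = 0 ∧ (0 : ℝ) < 0)).card : ℝ) := by positivity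
    have h3 : φ * ((k + T).choose T : ℝ) * ((k + T : ℝ) * (k + T - 1)) ≤ s * ((k + T : ℝ) * (k + T - 1)) := by
      apply mul_le_mul_of_nonneg_right h1
      apply mul_nonneg <;> linarith
    nlinarith
  · have key : ∀ z ∈ A, ∀ v ∈ A.erase z, φ * ((k + T).choose T : ℝ) ≤ ∑ K ∈ A.powersetCard T,
        (if z ∈ K then (if ∑ i ∈ K, x i < ∑ i ∈ A, x i then (1 : ℝ) else 0)
          else if v ∈ K then (if ∑ i ∈ K, x i ≤ 0 then 1 else 0)
          else (if ∑ i ∈ K, x i < 0 then 1 else 0)) := by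
      intro z hz v hv
      obtain ⟨hv1, hv2⟩ := Finset.mem_erase.1 hv
      exact RST_zv k T φ hW A x hA hinj z v hz hv2 (Ne.symm hv1)
    have h1 : ∑ z ∈ A, ∑ _v ∈ A.erase z, φ * ((k + T).choose T : ℝ) ≤
        ∑ z ∈ A, ∑ v ∈ A.erase z, ∑ K ∈ A.powersetCard T,
        (if z ∈ K then (if ∑ i ∈ K, x i < ∑ i ∈ A, x i then (1 : ℝ) else 0)
          else if v ∈ K then (if ∑ i ∈ K, x i ≤ 0 then 1 else 0)
          else (if ∑ i ∈ K, x i < 0 then 1 else 0)) :=
      Finset.sum_le_sum (fun z hz => Finset.sum_le_sum (fun v hv => key z hz v hv))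
    have h2 : ∑ z ∈ A, ∑ _v ∈ A.erase z, φ * ((k + T).choose T : ℝ) =
        φ * ((k + T : ℝ) * (k + T - 1)) * ((k + T).choose T : ℝ) := by
      have : ∀ z ∈ A, ∑ _v ∈ A.erase z, φ * ((k + T).choose T : ℝ) =
          (k + T - 1) * (φ * ((k + T).choose T : ℝ)) := by
        intro z hz
        rw [Finset.sum_const, nsmul_eq_mul, Finset.card_erase_of_mem hz, hA,
          Nat.cast_sub (by omega)]
        push_cast
        ring
      rw [Finset.sum_congr rfl this, Finset.sum_const, nsmul_eq_mul, hA]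
      push_cast
      ring
    have h3 : ∑ z ∈ A, ∑ v ∈ A.erase z, ∑ K ∈ A.powersetCard T,
        (if z ∈ K then (if ∑ i ∈ K, x i < ∑ i ∈ A, x i then (1 : ℝ) else 0)
          else if v ∈ K then (if ∑ i ∈ K, x i ≤ 0 then 1 else 0)
          else (if ∑ i ∈ K, x i < 0 then 1 else 0)) =
        ∑ K ∈ A.powersetCard T, (T * (k + T - 1) * (if ∑ i ∈ K, x i < ∑ i ∈ A, x i then (1 : ℝ) else 0) +
          k * (T * (if ∑ i ∈ K, x i ≤ 0 then (1 : ℝ) else 0) +
            (k - 1) * (if ∑ i ∈ K, x i < 0 then (1 : ℝ) else 0))) := by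
      have h4 : ∀ z ∈ A, ∑ v ∈ A.erase z, ∑ K ∈ A.powersetCard T,
          (if z ∈ K then (if ∑ i ∈ K, x i < ∑ i ∈ A, x i then (1 : ℝ) else 0)
            else if v ∈ K then (if ∑ i ∈ K, x i ≤ 0 then 1 else 0)
            else (if ∑ i ∈ K, x i < 0 then 1 else 0)) =
          ∑ K ∈ A.powersetCard T, ∑ v ∈ A.erase z,
          (if z ∈ K then (if ∑ i ∈ K, x i < ∑ i ∈ A, x i then (1 : ℝ) else 0)
            else if v ∈ K then (if ∑ i ∈ K, x i ≤ 0 then 1 else 0)
            else (if ∑ i ∈ K, x i < 0 then 1 else 0)) := by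
        intro z _
        exact Finset.sum_comm
      rw [Finset.sum_congr rfl h4, Finset.sum_comm]
      apply Finset.sum_congr rfl
      intro K hK
      obtain ⟨hK1, hK2⟩ := Finset.mem_powersetCard.1 hK
      exact RST_wt A K k T _ _ _ hA hK1 hK2
    have h5 : ∀ K ∈ A.powersetCard T,
        (T * (k + T - 1) * (if ∑ i ∈ K, x i < ∑ i ∈ A, x i then (1 : ℝ) else 0) +
          k * (T * (if ∑ i ∈ K, x i ≤ 0 then (1 : ℝ) else 0) +
            (k - 1) * (if ∑ i ∈ K, x i < 0 then (1 : ℝ) else 0))) =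
        k * (k + T - 1) * (if ∑ i ∈ K, x i < 0 then (1 : ℝ) else 0) +
        k * T * (if (∑ i ∈ K, x i = 0 ∧ 0 < ∑ i ∈ A, x i) then (1 : ℝ) else 0) +
        T * (k + T - 1) * (if ∑ i ∈ K, x i < ∑ i ∈ A, x i then (1 : ℝ) else 0) := by
      intro K _
      rcases lt_trichotomy (∑ i ∈ K, x i) 0 with h | h | h
      · rw [if_pos h, if_pos h.le, if_neg (show ¬ (∑ i ∈ K, x i = 0 ∧ 0 < ∑ i ∈ A, x i) from
          fun h' => absurd h'.1 (ne_of_lt h))]
        ring
      · rw [h]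
        simp [hu]
        ring
      · rw [if_neg (not_lt.2 h.le), if_neg (not_le.2 h), if_neg (show ¬ (∑ i ∈ K, x i = 0 ∧
          0 < ∑ i ∈ A, x i) from fun h' => absurd h'.1 (ne_of_gt h))]
        ring
    rw [h2, h3, Finset.sum_congr rfl h5, Finset.sum_add_distrib, Finset.sum_add_distrib,
      ← Finset.mul_sum, ← Finset.mul_sum, ← Finset.mul_sum] at h1
    have e : ∀ (P : Finset ι → Prop) [DecidablePred P],
        ∑ K ∈ A.powersetCard T, (if P K then (1 : ℝ) else 0) =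
          (((A.powersetCard T).filter P).card : ℝ) := by
      intro P _
      rw [Finset.card_filter, Nat.cast_sum]
      apply Finset.sum_congr rfl
      intro K _
      split_ifs <;> simp
    rw [e (fun K => ∑ i ∈ K, x i < 0), e (fun K => ∑ i ∈ K, x i = 0 ∧ 0 < ∑ i ∈ A, x i),
      e (fun K => ∑ i ∈ K, x i < ∑ i ∈ A, x i)] at h1
    exact h1

/-! ### summation over `B₂` -/

/-- pairs with `x(B₂) ≤ 0` and light rest -/
noncomputable def RST_N {ι : Type} [DecidableEq ι] (C : Finset ι) (x : ι → ℝ) (k : ℕ) : ℕ :=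
  ((MP_9999b5_mr.prs C k).filter (fun p => ∑ i ∈ p.2, x i ≤ 0 ∧
    ∑ i ∈ (C \ p.2) \ p.1, x i < ∑ i ∈ C, x i)).card

/-- pairs with `x(B₂) ≤ 0` and `x(B₁) > 0` -/
noncomputable def RST_G {ι : Type} [DecidableEq ι] (C : Finset ι) (x : ι → ℝ) (k : ℕ) : ℕ :=
  ((MP_9999b5_mr.prs C k).filter (fun p => ∑ i ∈ p.2, x i ≤ 0 ∧ 0 < ∑ i ∈ p.1, x i)).card

/-- pairs with `x(B₂) < 0` and rest zero -/
noncomputable def RST_Z {ι : Type} [DecidableEq ι] (C : Finset ι) (x : ι → ℝ) (k : ℕ) : ℕ :=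
  ((MP_9999b5_mr.prs C k).filter (fun p => ∑ i ∈ p.2, x i ≤ 0 ∧
    (∑ i ∈ (C \ p.2) \ p.1, x i = 0 ∧ 0 < ∑ i ∈ C \ p.2, x i))).card

theorem RST_LG {ι : Type} [DecidableEq ι] (C : Finset ι) (x : ι → ℝ) (k : ℕ) :
    MP_9999b5_sp.EX2_L C x k = RST_G C x k + MP_9999b5_mr.bad C x k := by
  unfold MP_9999b5_sp.EX2_L RST_G MP_9999b5_mr.bad
  rw [← card_union_of_disjoint]
  · congr 1
    ext p
    simp only [mem_union, mem_filter]
    constructor
    · rintro ⟨hp, h⟩
      rcases le_or_gt (∑ i ∈ p.1, x i) 0 with ha | ha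
      · exact Or.inr ⟨hp, ha, h⟩
      · exact Or.inl ⟨hp, h, ha⟩
    · rintro (⟨hp, h, _⟩ | ⟨hp, _, h⟩)
      · exact ⟨hp, h⟩
      · exact ⟨hp, h⟩
  · rw [disjoint_filter]
    rintro p _ ⟨_, h⟩ ⟨h', _⟩
    linarith

theorem RST_NE {ι : Type} [DecidableEq ι] (C : Finset ι) (x : ι → ℝ) (k : ℕ) :
    RST_N C x k ≤ (MP_9999b5_sp.EXG_N C x k).card := by
  unfold RST_N MP_9999b5_sp.EXG_N
  apply card_le_card
  intro p hp
  obtain ⟨h1, h2, h3⟩ := mem_filter.1 hp
  obtain ⟨a1, a2, a3, a4, a5⟩ := MP_9999b5_sp.EXG_prs.1 h1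
  have hDC : p.1 ⊆ C \ p.2 := subset_sdiff.2 ⟨a1, a5⟩
  have sC : ∑ i ∈ C \ p.2, x i + ∑ i ∈ p.2, x i = ∑ i ∈ C, x i := sum_sdiff a3
  have sD : ∑ i ∈ (C \ p.2) \ p.1, x i + ∑ i ∈ p.1, x i = ∑ i ∈ C \ p.2, x i := sum_sdiff hDC
  refine mem_filter.2 ⟨h1, ?_, h2, ?_⟩
  · linarith
  · linarith

/-- the fibre computation: an inequality for each `A = C \ B₂` sums up -/
theorem RST_sum {ι : Type} [DecidableEq ι] (C : Finset ι) (x : ι → ℝ) (k T : ℕ)
    (hC : C.card = 2 * k + T) (α β γ δ : ℝ)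
    (h : ∀ A : Finset ι, A ⊆ C → A.card = k + T → ∑ i ∈ C \ A, x i ≤ 0 →
      α * ((k + T).choose T : ℝ) ≤
        β * (((A.powersetCard T).filter (fun K => ∑ i ∈ K, x i < ∑ i ∈ C, x i)).card : ℝ) +
        γ * (((A.powersetCard T).filter
          (fun K => ∑ i ∈ K, x i = 0 ∧ 0 < ∑ i ∈ A, x i)).card : ℝ) +
        δ * (((A.powersetCard T).filter (fun K => ∑ i ∈ K, x i < ∑ i ∈ A, x i)).card : ℝ)) :
    α * (MP_9999b5_sp.EX2_L C x k : ℝ) ≤ β * (RST_N C x k : ℝ) + γ * (RST_Z C x k : ℝ) +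
      δ * (RST_G C x k : ℝ) := by
  have hL : (MP_9999b5_sp.EX2_L C x k : ℝ) = ∑ B ∈ C.powersetCard k,
      ((((C \ B).powersetCard k).filter (fun _ => ∑ i ∈ B, x i ≤ 0)).card : ℝ) := by
    unfold MP_9999b5_sp.EX2_L
    rw [MP_9999b5_sp.EX2_fib C k (fun _ B => ∑ i ∈ B, x i ≤ 0), Nat.cast_sum]
  have hN : (RST_N C x k : ℝ) = ∑ B ∈ C.powersetCard k,
      ((((C \ B).powersetCard k).filter (fun A => ∑ i ∈ B, x i ≤ 0 ∧
        ∑ i ∈ (C \ B) \ A, x i < ∑ i ∈ C, x i)).card : ℝ) := by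
    unfold RST_N
    rw [MP_9999b5_sp.EX2_fib C k (fun A B => ∑ i ∈ B, x i ≤ 0 ∧
      ∑ i ∈ (C \ B) \ A, x i < ∑ i ∈ C, x i), Nat.cast_sum]
  have hZ : (RST_Z C x k : ℝ) = ∑ B ∈ C.powersetCard k,
      ((((C \ B).powersetCard k).filter (fun A => ∑ i ∈ B, x i ≤ 0 ∧
        (∑ i ∈ (C \ B) \ A, x i = 0 ∧ 0 < ∑ i ∈ C \ B, x i))).card : ℝ) := by
    unfold RST_Z
    rw [MP_9999b5_sp.EX2_fib C k (fun A B => ∑ i ∈ B, x i ≤ 0 ∧
      (∑ i ∈ (C \ B) \ A, x i = 0 ∧ 0 < ∑ i ∈ C \ B, x i)), Nat.cast_sum]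
  have hG : (RST_G C x k : ℝ) = ∑ B ∈ C.powersetCard k,
      ((((C \ B).powersetCard k).filter (fun A => ∑ i ∈ B, x i ≤ 0 ∧
        0 < ∑ i ∈ A, x i)).card : ℝ) := by
    unfold RST_G
    rw [MP_9999b5_sp.EX2_fib C k (fun A B => ∑ i ∈ B, x i ≤ 0 ∧ 0 < ∑ i ∈ A, x i), Nat.cast_sum]
  rw [hL, hN, hZ, hG, Finset.mul_sum, Finset.mul_sum, Finset.mul_sum, Finset.mul_sum,
    ← Finset.sum_add_distrib, ← Finset.sum_add_distrib]
  refine Finset.sum_le_sum ?_
  intro B hB
  obtain ⟨hB1, hB2⟩ := mem_powersetCard.1 hB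
  by_cases hb : ∑ i ∈ B, x i ≤ 0
  · have hA : (C \ B).card = k + T := by
      rw [card_sdiff_of_subset hB1]
      omega
    have h1 := h (C \ B) sdiff_subset hA (by
      rw [Finset.sdiff_sdiff_eq_self hB1]
      exact hb)
    rw [MP_9999b5_sp.EX2_comp (C \ B) k T hA (fun K => ∑ i ∈ K, x i < ∑ i ∈ C, x i),
      MP_9999b5_sp.EX2_comp (C \ B) k T hA (fun K => ∑ i ∈ K, x i = 0 ∧ 0 < ∑ i ∈ C \ B, x i),
      MP_9999b5_sp.EX2_comp (C \ B) k T hA (fun K => ∑ i ∈ K, x i < ∑ i ∈ C \ B, x i)] at h1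
    have e1 : (((C \ B).powersetCard k).filter (fun _ => ∑ i ∈ B, x i ≤ 0)).card =
        (k + T).choose T := by
      rw [filter_true_of_mem (fun _ _ => hb), card_powersetCard, hA]
      rw [Nat.choose_symm_add]
    have e2 : ((C \ B).powersetCard k).filter (fun A => ∑ i ∈ B, x i ≤ 0 ∧
        ∑ i ∈ (C \ B) \ A, x i < ∑ i ∈ C, x i) =
        ((C \ B).powersetCard k).filter (fun A => ∑ i ∈ (C \ B) \ A, x i < ∑ i ∈ C, x i) := by
      apply filter_congr
      intro A _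
      exact ⟨fun h => h.2, fun h => ⟨hb, h⟩⟩
    have e4 : ((C \ B).powersetCard k).filter (fun A => ∑ i ∈ B, x i ≤ 0 ∧
        (∑ i ∈ (C \ B) \ A, x i = 0 ∧ 0 < ∑ i ∈ C \ B, x i)) =
        ((C \ B).powersetCard k).filter
          (fun A => ∑ i ∈ (C \ B) \ A, x i = 0 ∧ 0 < ∑ i ∈ C \ B, x i) := by
      apply filter_congr
      intro A _
      exact ⟨fun h => h.2, fun h => ⟨hb, h⟩⟩
    have e3 : ((C \ B).powersetCard k).filter (fun A => ∑ i ∈ B, x i ≤ 0 ∧
        0 < ∑ i ∈ A, x i) =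
        ((C \ B).powersetCard k).filter
          (fun A => ∑ i ∈ (C \ B) \ A, x i < ∑ i ∈ C \ B, x i) := by
      apply filter_congr
      intro A hA'
      have sD : ∑ i ∈ (C \ B) \ A, x i + ∑ i ∈ A, x i = ∑ i ∈ C \ B, x i :=
        sum_sdiff (mem_powersetCard.1 hA').1
      constructor
      · intro h
        linarith [h.2]
      · intro h
        exact ⟨hb, by linarith⟩
    rw [e1, e2, e3, e4]
    exact h1
  · have e1 : ((C \ B).powersetCard k).filter (fun _ => ∑ i ∈ B, x i ≤ 0) = ∅ :=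
      filter_false_of_mem (fun _ _ => hb)
    have e2 : ((C \ B).powersetCard k).filter (fun A => ∑ i ∈ B, x i ≤ 0 ∧
        ∑ i ∈ (C \ B) \ A, x i < ∑ i ∈ C, x i) = ∅ :=
      filter_false_of_mem (fun _ _ h => hb h.1)
    have e4 : ((C \ B).powersetCard k).filter (fun A => ∑ i ∈ B, x i ≤ 0 ∧
        (∑ i ∈ (C \ B) \ A, x i = 0 ∧ 0 < ∑ i ∈ C \ B, x i)) = ∅ :=
      filter_false_of_mem (fun _ _ h => hb h.1)
    have e3 : ((C \ B).powersetCard k).filter (fun A => ∑ i ∈ B, x i ≤ 0 ∧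
        0 < ∑ i ∈ A, x i) = ∅ :=
      filter_false_of_mem (fun _ _ h => hb h.1)
    rw [e1, e2, e3, e4, card_empty]
    simp

/-- few pairs with total `x(B₁) + x(B₂) = 0` if the sum of `C` is `0` -/
theorem RST_zeros {ι : Type} [DecidableEq ι] (C : Finset ι) (x : ι → ℝ) (k T : ℕ) (hT : 1 ≤ T)
    (hC : C.card = 2 * k + T) (hinj : Set.InjOn x C) (hc : ∑ i ∈ C, x i = 0) :
    (2 * k + 1) * ((MP_9999b5_mr.prs C k).filter
      (fun p => ∑ i ∈ p.1, x i + ∑ i ∈ p.2, x i = 0)).card ≤ (MP_9999b5_mr.prs C k).card := by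
  have h1 : ((MP_9999b5_mr.prs C k).filter
      (fun p => ∑ i ∈ p.1, x i + ∑ i ∈ p.2, x i = 0)).card =
      (2 * k).choose k * ((C.powersetCard (2 * k)).filter (fun U => ∑ i ∈ U, x i = 0)).card := by
    rw [card_filter, MP_9999b5_mr.p_PAI ι C k (fun B B' => if ∑ i ∈ B, x i + ∑ i ∈ B', x i = 0 then 1 else 0),
      card_filter, mul_sum]
    apply sum_congr rfl
    intro U hU
    obtain ⟨-, hU2⟩ := mem_powersetCard.1 hU
    have : ∀ B ∈ U.powersetCard k, (if ∑ i ∈ B, x i + ∑ i ∈ U \ B, x i = 0 then 1 else 0) =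
        if ∑ i ∈ U, x i = 0 then 1 else 0 := by
      intro B hB
      have := sum_sdiff (f := x) (mem_powersetCard.1 hB).1
      rw [add_comm, this]
    rw [sum_congr rfl this, sum_const, card_powersetCard, hU2, smul_eq_mul]
  have h2 : (MP_9999b5_mr.prs C k).card = (2 * k).choose k * C.card.choose (2 * k) := by
    rw [card_eq_sum_ones, MP_9999b5_mr.p_PAI ι C k (fun _ _ => 1)]
    have : ∀ U ∈ C.powersetCard (2 * k), ∑ _B ∈ U.powersetCard k, 1 = (2 * k).choose k := by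
      intro U hU
      rw [← card_eq_sum_ones, card_powersetCard, (mem_powersetCard.1 hU).2]
    rw [sum_congr rfl this, sum_const, card_powersetCard, smul_eq_mul, mul_comm]
  have h3 : ((C.powersetCard (2 * k)).filter (fun U => ∑ i ∈ U, x i = 0)).card =
      ((C.powersetCard T).filter (fun U => ∑ i ∈ U, x i = 0)).card := by
    refine card_nbij' (fun K => C \ K) (fun B => C \ B) ?_ ?_ ?_ ?_
    · intro K hK
      obtain ⟨h1, h2⟩ := mem_filter.1 (mem_coe.1 hK)
      obtain ⟨h3, h4⟩ := mem_powersetCard.1 h1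
      refine mem_coe.2 (mem_filter.2 ⟨mem_powersetCard.2 ⟨sdiff_subset, ?_⟩, ?_⟩)
      · rw [card_sdiff_of_subset h3]
        omega
      · have := sum_sdiff (f := x) h3
        simp only
        linarith
    · intro K hK
      obtain ⟨h1, h2⟩ := mem_filter.1 (mem_coe.1 hK)
      obtain ⟨h3, h4⟩ := mem_powersetCard.1 h1
      refine mem_coe.2 (mem_filter.2 ⟨mem_powersetCard.2 ⟨sdiff_subset, ?_⟩, ?_⟩)
      · rw [card_sdiff_of_subset h3]
        omega
      · have := sum_sdiff (f := x) h3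
        simp only
        linarith
    · intro K hK
      exact Finset.sdiff_sdiff_eq_self (mem_powersetCard.1 (mem_filter.1 (mem_coe.1 hK)).1).1
    · intro K hK
      exact Finset.sdiff_sdiff_eq_self (mem_powersetCard.1 (mem_filter.1 (mem_coe.1 hK)).1).1
  have h4 := MP_9999b5_sp.ZE2_inj C x T hinj
  obtain ⟨z, hz⟩ : ∃ z, z = ((C.powersetCard T).filter (fun B => ∑ i ∈ B, x i = 0)).card :=
    ⟨_, rfl⟩
  rw [h1, h2, h3]
  rw [← hz] at h4 ⊢
  have h5 : (2 * k + 1) * C.card.choose (T - 1) = T * C.card.choose T := by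
    obtain ⟨j, hj⟩ : ∃ j, T = j + 1 := ⟨T - 1, by omega⟩
    have h := Nat.choose_succ_right_eq C.card j
    have e1 : C.card - j = 2 * k + 1 := by omega
    rw [e1, ← hj] at h
    have e2 : T - 1 = j := by omega
    rw [e2]
    rw [mul_comm (2 * k + 1), ← h, mul_comm]
  have h6 : (2 * k + 1) * z ≤ C.card.choose T := by
    apply Nat.le_of_mul_le_mul_left _ (show 0 < T by omega)
    calc T * ((2 * k + 1) * z) = (2 * k + 1) * (T * z) := by ring
      _ ≤ (2 * k + 1) * C.card.choose (T - 1) := Nat.mul_le_mul_left _ h4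
      _ = T * C.card.choose T := h5
  have h7 : C.card.choose (2 * k) = C.card.choose T := by
    rw [hC, Nat.choose_symm_add]
  rw [h7]
  calc (2 * k + 1) * ((2 * k).choose k * z) = (2 * k).choose k * ((2 * k + 1) * z) := by ring
    _ ≤ (2 * k).choose k * C.card.choose T := Nat.mul_le_mul_left _ h6

theorem RST_half {ι : Type} [DecidableEq ι] (C : Finset ι) (x : ι → ℝ) (k : ℕ)
    (hc : ∑ i ∈ C, x i = 0) :
    2 * RST_Z C x k ≤ ((MP_9999b5_mr.prs C k).filter
      (fun p => ∑ i ∈ p.1, x i + ∑ i ∈ p.2, x i = 0)).card := by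
  have h1 : RST_Z C x k ≤ ((MP_9999b5_mr.prs C k).filter
      (fun p => ∑ i ∈ p.2, x i < 0 ∧ ∑ i ∈ p.1, x i + ∑ i ∈ p.2, x i = 0)).card := by
    unfold RST_Z
    apply card_le_card
    intro p hp
    obtain ⟨h1, h2, h3, h4⟩ := mem_filter.1 hp
    obtain ⟨a1, a2, a3, a4, a5⟩ := MP_9999b5_sp.EXG_prs.1 h1
    have hDC : p.1 ⊆ C \ p.2 := subset_sdiff.2 ⟨a1, a5⟩
    have sC : ∑ i ∈ C \ p.2, x i + ∑ i ∈ p.2, x i = ∑ i ∈ C, x i := sum_sdiff a3
    have sD : ∑ i ∈ (C \ p.2) \ p.1, x i + ∑ i ∈ p.1, x i = ∑ i ∈ C \ p.2, x i := sum_sdiff hDC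
    refine mem_filter.2 ⟨h1, ?_, ?_⟩
    · linarith
    · linarith
  have h2 : ((MP_9999b5_mr.prs C k).filter
      (fun p => ∑ i ∈ p.2, x i < 0 ∧ ∑ i ∈ p.1, x i + ∑ i ∈ p.2, x i = 0)).card =
      ((MP_9999b5_mr.prs C k).filter
      (fun p => ∑ i ∈ p.1, x i < 0 ∧ ∑ i ∈ p.1, x i + ∑ i ∈ p.2, x i = 0)).card := by
    refine card_nbij' Prod.swap Prod.swap ?_ ?_ ?_ ?_
    · intro p hp
      obtain ⟨h1, h2, h3⟩ := mem_filter.1 (mem_coe.1 hp)
      obtain ⟨a1, a2, a3, a4, a5⟩ := MP_9999b5_sp.EXG_prs.1 h1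
      refine mem_coe.2 (mem_filter.2 ⟨MP_9999b5_sp.EXG_prs.2 ⟨a3, a4, a1, a2, a5.symm⟩, h2, ?_⟩)
      simp only [Prod.fst_swap, Prod.snd_swap]
      linarith
    · intro p hp
      obtain ⟨h1, h2, h3⟩ := mem_filter.1 (mem_coe.1 hp)
      obtain ⟨a1, a2, a3, a4, a5⟩ := MP_9999b5_sp.EXG_prs.1 h1
      refine mem_coe.2 (mem_filter.2 ⟨MP_9999b5_sp.EXG_prs.2 ⟨a3, a4, a1, a2, a5.symm⟩, h2, ?_⟩)
      simp only [Prod.fst_swap, Prod.snd_swap]
      linarith
    · intro p _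
      exact Prod.swap_swap p
    · intro p _
      exact Prod.swap_swap p
  have h3 : ((MP_9999b5_mr.prs C k).filter
      (fun p => ∑ i ∈ p.2, x i < 0 ∧ ∑ i ∈ p.1, x i + ∑ i ∈ p.2, x i = 0)).card +
      ((MP_9999b5_mr.prs C k).filter
      (fun p => ∑ i ∈ p.1, x i < 0 ∧ ∑ i ∈ p.1, x i + ∑ i ∈ p.2, x i = 0)).card ≤
      ((MP_9999b5_mr.prs C k).filter
      (fun p => ∑ i ∈ p.1, x i + ∑ i ∈ p.2, x i = 0)).card := by
    rw [← card_union_of_disjoint]
    · apply card_le_card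
      intro p hp
      rcases mem_union.1 hp with h | h
      · obtain ⟨h1, _, h3⟩ := mem_filter.1 h
        exact mem_filter.2 ⟨h1, h3⟩
      · obtain ⟨h1, _, h3⟩ := mem_filter.1 h
        exact mem_filter.2 ⟨h1, h3⟩
    · rw [disjoint_filter]
      rintro p _ ⟨h1, h2⟩ ⟨h3, _⟩
      linarith
  omega

/-- **the strict R-flow inequality** -/
theorem RST (k T : ℕ) (φ : ℝ) (hk : 1 ≤ k) (hT : 1 ≤ T) (hW : MaxSums.W T (k + T) φ)
    (ι : Type) [DecidableEq ι] (C : Finset ι) (x : ι → ℝ) (hC : C.card = 2 * k + T)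
    (hinj : Set.InjOn x C) (hc : 0 ≤ ∑ i ∈ C, x i) :
    φ * (k + T) * (((MP_9999b5_mr.prs C k).card : ℝ) + (MP_9999b5_mr.bad C x k : ℝ) -
        (MP_9999b5_sp.pp C x k : ℝ)) ≤
      k * (((MP_9999b5_mr.prs C k).card : ℝ) - (MP_9999b5_mr.hvy C x k : ℝ) -
        (MP_9999b5_sp.pp C x k : ℝ)) +
      T * (((MP_9999b5_mr.prs C k).card : ℝ) - (MP_9999b5_mr.bad C x k : ℝ) -
        (MP_9999b5_sp.pp C x k : ℝ)) +
      (k : ℝ) * T / ((k + T - 1) * (2 * k + 1)) * ((MP_9999b5_mr.prs C k).card : ℝ) := by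
  have hT1 : (1 : ℝ) ≤ (T : ℝ) := by exact_mod_cast hT
  have hk1 : (1 : ℝ) ≤ (k : ℝ) := by exact_mod_cast hk
  have hkT : (0 : ℝ) < (k : ℝ) + T - 1 := by linarith
  have h2 : (MP_9999b5_sp.EX2_L C x k : ℝ) = (RST_G C x k : ℝ) + (MP_9999b5_mr.bad C x k : ℝ) := by
    exact_mod_cast RST_LG C x k
  have h3 : 2 * (MP_9999b5_sp.EX2_L C x k : ℝ) + (MP_9999b5_sp.pp C x k : ℝ) =
      ((MP_9999b5_mr.prs C k).card : ℝ) + (MP_9999b5_mr.bad C x k : ℝ) := by
    exact_mod_cast MP_9999b5_sp.EX2_two C x k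
  have h4 : 2 * ((MP_9999b5_sp.EXG_N C x k).card : ℝ) + (MP_9999b5_sp.pp C x k : ℝ) +
      (MP_9999b5_mr.hvy C x k : ℝ) = ((MP_9999b5_mr.prs C k).card : ℝ) := by
    exact_mod_cast MP_9999b5_sp.EXG_count C x k
  have h5 : (RST_N C x k : ℝ) ≤ ((MP_9999b5_sp.EXG_N C x k).card : ℝ) := by
    exact_mod_cast RST_NE C x k
  have hN0 : 0 ≤ ((MP_9999b5_mr.prs C k).card : ℝ) := Nat.cast_nonneg _
  -- main inequality
  have key : φ * (k + T) * (MP_9999b5_sp.EX2_L C x k : ℝ) ≤ k * (RST_N C x k : ℝ) +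
      T * (RST_G C x k : ℝ) +
      (k : ℝ) * T / ((k + T - 1) * (2 * k + 1)) * ((MP_9999b5_mr.prs C k).card : ℝ) / 2 := by
    rcases eq_or_lt_of_le hc with hc0 | hc0
    · have hz : (2 * k + 1 : ℝ) * (2 * (RST_Z C x k : ℝ)) ≤ ((MP_9999b5_mr.prs C k).card : ℝ) := by
        have e1 := RST_zeros C x k T hT hC hinj hc0.symm
        have e2 := RST_half C x k hc0.symm
        have e3 : (2 * k + 1) * (2 * RST_Z C x k) ≤ (MP_9999b5_mr.prs C k).card :=
          le_trans (Nat.mul_le_mul_left _ e2) e1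
        exact_mod_cast e3
      have h1 := RST_sum C x k T hC (φ * ((k + T : ℝ) * (k + T - 1))) (k * (k + T - 1)) (k * T)
        (T * (k + T - 1)) (by
          intro A hAC hA hs
          have sC : ∑ i ∈ C \ A, x i + ∑ i ∈ A, x i = ∑ i ∈ C, x i := sum_sdiff hAC
          have := RST_zero k T φ hk hT hW A x hA (hinj.mono (by exact_mod_cast hAC)) (by linarith)
          rw [← hc0]
          exact this)
      have h6 : (RST_Z C x k : ℝ) ≤ ((MP_9999b5_mr.prs C k).card : ℝ) / (2 * k + 1) / 2 := by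
        rw [le_div_iff₀ (by norm_num), le_div_iff₀ (by linarith)]
        linarith
      have h7 : (k + T - 1 : ℝ) * (φ * (k + T) * (MP_9999b5_sp.EX2_L C x k : ℝ)) ≤
          (k + T - 1 : ℝ) * (k * (RST_N C x k : ℝ) + T * (RST_G C x k : ℝ)) +
          k * T * (((MP_9999b5_mr.prs C k).card : ℝ) / (2 * k + 1) / 2) := by
        have : (k : ℝ) * T * (RST_Z C x k : ℝ) ≤
            k * T * (((MP_9999b5_mr.prs C k).card : ℝ) / (2 * k + 1) / 2) :=
          mul_le_mul_of_nonneg_left h6 (by positivity)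
        nlinarith
      have h8 : (k : ℝ) * T * (((MP_9999b5_mr.prs C k).card : ℝ) / (2 * k + 1) / 2) =
          (k + T - 1 : ℝ) * ((k : ℝ) * T / ((k + T - 1) * (2 * k + 1)) *
            ((MP_9999b5_mr.prs C k).card : ℝ) / 2) := by
        have : (2 * (k : ℝ) + 1) ≠ 0 := by linarith
        field_simp
      rw [h8, ← mul_add] at h7
      exact le_of_mul_le_mul_left h7 hkT
    · have hWP := MP_9999b5_sp.p_PRT T (k + T) φ hW
      have h1 := RST_sum C x k T hC (φ * (k + T : ℝ)) k 0 T (by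
          intro A hAC hA hs
          have := RST_pos k T φ (∑ i ∈ C, x i) hk hT hWP A x hA hc0
          linarith)
      have h9 : 0 ≤ (k : ℝ) * T / ((k + T - 1) * (2 * k + 1)) *
          ((MP_9999b5_mr.prs C k).card : ℝ) / 2 := by
        have : 0 ≤ (k : ℝ) * T / ((k + T - 1) * (2 * k + 1)) := by
          apply div_nonneg (by positivity)
          apply mul_nonneg hkT.le (by linarith)
        positivity
      linarith
  have h10 : ((MP_9999b5_mr.prs C k).card : ℝ) + (MP_9999b5_mr.bad C x k : ℝ) -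
      (MP_9999b5_sp.pp C x k : ℝ) = 2 * (MP_9999b5_sp.EX2_L C x k : ℝ) := by linarith
  have h11 : (k : ℝ) * (2 * (RST_N C x k : ℝ)) ≤
      k * (((MP_9999b5_mr.prs C k).card : ℝ) - (MP_9999b5_mr.hvy C x k : ℝ) -
        (MP_9999b5_sp.pp C x k : ℝ)) := by
    apply mul_le_mul_of_nonneg_left _ (by linarith)
    linarith
  have h12 : ((MP_9999b5_mr.prs C k).card : ℝ) - (MP_9999b5_mr.bad C x k : ℝ) -
        (MP_9999b5_sp.pp C x k : ℝ) = 2 * (RST_G C x k : ℝ) := by linarith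
  rw [h10, h12]
  linarith

end Pool.Agent.Work.MP_9999b5_fin
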